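import Pool.Agent.Y164.SZ.Def
import Pool.Agent.Y164.HG.Main

/-!
From the cells to all polynomials (project SZ).
-/

set_option autoImplicit false
set_option linter.all false

namespace Pool.Agent.Y261.SZ

open Finset Polynomial Filter Topology
open Pool.Agent.Y164.SZ
open Pool.Agent.Y164.PS (Fam Sf mem_Sf pf mem_pf sm cb cb_pos tend_log2 asy2 cop_lower)
open Pool.Agent.Y164.HG (ty nontyp cnt cnt_eq cnt_le le_cnt asy1 asy3 asy4 tend_div)
open scoped Classical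

variable {k : Type} [Field k] [Fintype k] [DecidableEq k]
variable {τ : Type} [Fintype τ] {Q : τ → k[X]}

theorem et_nonneg (ℓ n z : ℕ) : 0 ≤ et ℓ Q n z := by
  rw [et]
  positivity

theorem et_le {ℓ w n l A : ℕ} (hw : 1 ≤ w) (hn : n < 2 ^ (l + 1)) :
    et ℓ Q n ((w * A + 3) * l) * (w : ℝ) ^ (A * l) ≤
      (2 * (5 * (ℓ * (2 + dQ Q)) + 2 + 2 * (2 + Fintype.card τ))) * (1 / 2) ^ l := by
  have h1 : (n : ℝ) ≤ 2 * 2 ^ l := by
    have : n ≤ 2 * 2 ^ l := by rw [pow_succ] at hn; omega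
    exact_mod_cast this
  have h2 : (1 : ℝ) ≤ 2 ^ l := one_le_pow₀ (by norm_num)
  have h0 : (0 : ℝ) ≤ n := Nat.cast_nonneg _
  have hww : (w : ℝ) ≤ 2 ^ w := by exact_mod_cast (Nat.lt_two_pow_self (n := w)).le
  have hw0 : (0 : ℝ) < w := by exact_mod_cast hw
  set x : ℝ := 2 ^ l with hx
  have e1 : x ≤ x ^ 2 := by nlinarith
  have e2 : (1 : ℝ) ≤ x ^ 2 := by nlinarith
  have e3 : (n : ℝ) * n ≤ 4 * x ^ 2 := by nlinarith
  have e4 : (0 : ℝ) ≤ dQ Q := Nat.cast_nonneg _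
  have e5 : (0 : ℝ) ≤ Fintype.card τ := Nat.cast_nonneg _
  have e8 : (0 : ℝ) ≤ ℓ := Nat.cast_nonneg _
  have e6 : (dQ Q : ℝ) ≤ dQ Q * x ^ 2 := le_mul_of_one_le_right e4 e2
  have e7 : (n : ℝ) * Fintype.card τ ≤ 2 * Fintype.card τ * x ^ 2 := by
    calc (n : ℝ) * Fintype.card τ ≤ 2 * x ^ 2 * Fintype.card τ :=
          mul_le_mul_of_nonneg_right (by linarith) e5
      _ = _ := by ring
  have e9 : (ℓ : ℝ) * (n + dQ Q) ≤ ℓ * (2 + dQ Q) * x ^ 2 := by
    rw [mul_assoc]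
    apply mul_le_mul_of_nonneg_left _ e8
    linarith
  have h3 : (5 * (ℓ * (n + dQ Q) : ℕ) + 2 + n * (n + Fintype.card τ) : ℝ) ≤
      (5 * (ℓ * (2 + dQ Q)) + 2 + 2 * (2 + Fintype.card τ)) * x ^ 2 := by
    push_cast
    have e10 : (n : ℝ) * (n + Fintype.card τ) = n * n + n * Fintype.card τ := by ring
    have e11 : (5 * (ℓ * (2 + dQ Q)) + 2 + 2 * (2 + Fintype.card τ) : ℝ) * x ^ 2 =
      5 * (ℓ * (2 + dQ Q) * x ^ 2) + 2 * x ^ 2 + 4 * x ^ 2 + 2 * Fintype.card τ * x ^ 2 := by ring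
    rw [e10, e11]
    linarith
  have h4 : (w : ℝ) ^ (A * l) * x ^ 2 * x ≤ (2 : ℝ) ^ ((w * A + 3) * l) := by
    have h5 : (2 : ℝ) ^ ((w * A + 3) * l) = (2 ^ w) ^ (A * l) * x ^ 2 * x := by
      rw [hx, ← pow_mul, ← pow_mul, ← pow_add, ← pow_add]
      congr 1
      ring
    rw [h5]
    apply mul_le_mul_of_nonneg_right _ (by positivity)
    apply mul_le_mul_of_nonneg_right _ (by positivity)
    exact pow_le_pow_left₀ hw0.le hww _
  have h5 : (1 / 2 : ℝ) ^ l = 1 / x := by rw [hx, one_div_pow]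
  rw [et, h5]
  have hx0 : 0 < x := by positivity
  have h6 : (0 : ℝ) < (w : ℝ) ^ (A * l) := pow_pos hw0 _
  set C : ℝ := 5 * (ℓ * (2 + dQ Q)) + 2 + 2 * (2 + Fintype.card τ) with hC
  have hC0 : 0 ≤ C := by
    rw [hC]
    positivity
  rw [div_mul_eq_mul_div, div_le_iff₀ (by positivity)]
  have h7 := mul_le_mul_of_nonneg_right h3 (show (0 : ℝ) ≤ 2 * (w : ℝ) ^ (A * l) by linarith)
  have h8 : 2 * C * (1 / x) * ((w : ℝ) ^ (A * l) * x ^ 2 * x) ≤
      2 * C * (1 / x) * (2 : ℝ) ^ ((w * A + 3) * l) :=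
    mul_le_mul_of_nonneg_left h4 (by positivity)
  refine le_trans (le_of_eq ?_) (h7.trans (le_trans (le_of_eq ?_) h8))
  · ring
  · field_simp

/-- the choice of the parameters -/
theorem params (hk : ringChar k ≠ 2) (Q : τ → k[X]) (ℓ : ℕ) {w : ℕ} (hw : 1 ≤ w) (R : ℕ)
    (C : ℝ) (hC : 0 ≤ C) (δ : ℝ) (hδ : 0 < δ) :
    ∃ A : ℕ, ∀ᶠ n : ℕ in atTop, ∃ l s z : ℕ, 1 ≤ s ∧ 2 ≤ z ∧
      C * (1 / 2 : ℝ) ^ s ≤ 1 ∧
      (∀ m ≤ A * l, et ℓ Q n z * (C * (w : ℝ) ^ m) ≤ 1) ∧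
      (((Sf k n).filter fun D => ¬ ty R A l s z D).card : ℝ) ≤ δ * (Fintype.card k : ℝ) ^ n := by
  obtain ⟨A, hA⟩ := exists_nat_gt (9 / δ)
  have hAp : (0 : ℝ) < A := lt_trans (by positivity) hA
  have hA1 : 1 ≤ A := by
    have : 0 < A := by exact_mod_cast hAp
    exact this
  obtain ⟨c, hcd⟩ : ∃ c, c = 2 * R + 2 := ⟨_, rfl⟩
  have hc1 : 1 ≤ c := by omega
  refine ⟨A, ?_⟩
  have h1 := tend_log2.eventually (asy1 c hc1 C 1 one_pos)
  have h2 := tend_log2.eventually (asy2 ((2 * (5 * (ℓ * (2 + dQ Q)) + 2 + 2 * (2 +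
    Fintype.card τ))) * C) 1 one_pos)
  have h3 := tend_log2.eventually (asy3 c hc1 (w * A + 3) (by omega) (δ / 3) (by positivity))
  have h4 : ∀ᶠ l : ℕ in atTop, (1 / 2 : ℝ) ^ (l / c) ≤ δ / 3 := by
    have h5 : Tendsto (fun l : ℕ => (1 / 2 : ℝ) ^ (l / c)) atTop (𝓝 0) :=
      (tendsto_pow_atTop_nhds_zero_of_lt_one (by norm_num) (by norm_num)).comp (tend_div c hc1)
    exact h5.eventually_le_const (by positivity)
  have h4' := tend_log2.eventually h4
  have h5 := tend_log2.eventually_ge_atTop c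
  filter_upwards [h1, h2, h3, h4', h5, eventually_ge_atTop 1] with n e1 e2 e3 e4 e5 e6
  set l := Nat.log 2 n with hl
  have hl1 : 2 ^ l ≤ n := Nat.pow_log_le_self 2 (by omega)
  have hl2 : n < 2 ^ (l + 1) := Nat.lt_pow_succ_log_self (by norm_num) n
  have hs1 : 1 ≤ l / c := (Nat.one_le_div_iff (by omega)).2 e5
  have hl0' : 1 ≤ l := hc1.trans e5
  refine ⟨l, l / c, (w * A + 3) * l, hs1, ?_, e1, ?_, ?_⟩
  · have : 3 * 1 ≤ (w * A + 3) * l := Nat.mul_le_mul (by omega) hl0'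
    omega
  · intro m hm
    have h6 := et_le (Q := Q) (ℓ := ℓ) (A := A) hw hl2
    have hw1 : (1 : ℝ) ≤ w := by exact_mod_cast hw
    have h7 : (w : ℝ) ^ m ≤ (w : ℝ) ^ (A * l) := pow_le_pow_right₀ hw1 hm
    have h8 := et_nonneg (Q := Q) ℓ n ((w * A + 3) * l)
    calc et ℓ Q n ((w * A + 3) * l) * (C * (w : ℝ) ^ m) ≤
        et ℓ Q n ((w * A + 3) * l) * (C * (w : ℝ) ^ (A * l)) := by
          apply mul_le_mul_of_nonneg_left _ h8
          exact mul_le_mul_of_nonneg_left h7 hC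
      _ = (et ℓ Q n ((w * A + 3) * l) * (w : ℝ) ^ (A * l)) * C := by ring
      _ ≤ ((2 * (5 * (ℓ * (2 + dQ Q)) + 2 + 2 * (2 + Fintype.card τ))) * (1 / 2) ^ l) *
          C := mul_le_mul_of_nonneg_right h6 hC
      _ = ((2 * (5 * (ℓ * (2 + dQ Q)) + 2 + 2 * (2 + Fintype.card τ))) * C) * (1 / 2) ^ l := by ring
      _ ≤ 1 := e2
  · refine (nontyp (k := k) hk n R A l (l / c) ((w * A + 3) * l)).trans ?_
    rw [mul_comm δ]
    apply mul_le_mul_of_nonneg_left _ (by positivity)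
    have h6 : (1 + Real.log n) / ((A * l : ℕ) + 1) ≤ δ / 3 := by
      have hn0 : (0 : ℝ) < n := by exact_mod_cast e6
      have h7 : Real.log n ≤ l + 1 := by
        have h8 : Real.log n ≤ Real.log (2 ^ (l + 1)) := by
          apply Real.log_le_log hn0
          exact_mod_cast hl2.le
        rw [Real.log_pow] at h8
        have h9 : Real.log 2 ≤ 1 := by
          have := Real.log_two_lt_d9
          linarith
        calc Real.log n ≤ ((l + 1 : ℕ) : ℝ) * Real.log 2 := h8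
          _ ≤ ((l + 1 : ℕ) : ℝ) * 1 := mul_le_mul_of_nonneg_left h9 (by positivity)
          _ = _ := by push_cast; ring
      have hl0 : (1 : ℝ) ≤ l := by exact_mod_cast hl0'
      rw [div_le_iff₀ (by positivity)]
      have h8 : 9 < δ * A := by
        rw [div_lt_iff₀ hδ] at hA
        linarith
      push_cast
      nlinarith
    have h7 := e3
    have h8 := asy4 (R := R) (n := n) (l := l) (s := l / c) hl1 (by
      rw [← hcd]
      exact Nat.mul_div_le l c)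
    have h9 := h8.trans e4
    linarith

/-- many polynomials are prime to the bad primes -/
theorem nb_lower (hF : Fam Q) (hk : ringChar k ≠ 2) (hq : 4 ≤ Fintype.card k) :
    ∃ c : ℝ, 0 < c ∧ ∀ᶠ n : ℕ in atTop,
    c * (Fintype.card k : ℝ) ^ n ≤ (((Sf k n).filter (nb Q)).card : ℝ) := by
  set m0 : k[X] := ∏ s : τ, Q s with hm0
  have hm : m0.Monic := monic_prod_of_monic _ _ fun s _ => hF.mon s
  set M0 := m0.natDegree with hM0
  set q : ℝ := (Fintype.card k : ℝ) with hqd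
  have hq4 : (4 : ℝ) ≤ q := by rw [hqd]; exact_mod_cast hq
  refine ⟨1 / (4 * q ^ M0), by positivity, ?_⟩
  filter_upwards [eventually_ge_atTop (2 * M0 + 6)] with n hn
  have h1 := cop_lower (k := k) hk (by omega) hm (n := n) (by omega)
  have h2 : (((Sf k n).filter (fun D => IsCoprime D m0)).card : ℝ) ≤
      (((Sf k n).filter (nb Q)).card : ℝ) := by
    have : ((Sf k n).filter (fun D => IsCoprime D m0)).card ≤ ((Sf k n).filter (nb Q)).card := by
      apply card_le_card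
      intro D hD
      rw [mem_filter] at hD ⊢
      refine ⟨hD.1, fun s hs => ?_⟩
      exact (hF.irr s).not_isUnit (hD.2.isUnit_of_dvd' hs (dvd_prod_of_mem _ (mem_univ s)))
    exact_mod_cast this
  refine le_trans ?_ (h1.trans h2)
  rw [← hqd, ← hM0]
  obtain ⟨r, hr⟩ : ∃ r, n = M0 + r := ⟨n - M0, by omega⟩
  have h3 : n - M0 = r := by omega
  rw [h3, hr, pow_add]
  have h4 : 8 * q ^ (n / 2) ≤ q ^ r := by
    calc 8 * q ^ (n / 2) ≤ q ^ 2 * q ^ (n / 2) := by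
          apply mul_le_mul_of_nonneg_right _ (by positivity)
          nlinarith
      _ = q ^ (2 + n / 2) := by rw [pow_add]
      _ ≤ q ^ r := pow_le_pow_right₀ (by linarith) (by omega)
  rw [hr] at h4
  have h5 : 1 / (4 * q ^ M0) * (q ^ M0 * q ^ r) = q ^ r / 4 := by
    have : q ^ M0 ≠ 0 := by positivity
    field_simp
  rw [h5]
  linarith

section main
variable {ℓ : ℕ} [Fact ℓ.Prime] {W : Type} [AddCommGroup W] [Module (ZMod ℓ) W]

/-- the main estimate in a class -/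
theorem step_cnt (h : S_LVL) (hS : SYM ℓ k) (hF : Fam Q) (hk : ringChar k ≠ 2)
    (hq : 4 ≤ Fintype.card k) {G : k[X] → Prop} {D : FDat ℓ W τ} (hG : Imp D Q G)
    (c : ℝ) (hc : 0 ≤ c) (hce : CellEst D Q c) (δ : ℝ) (hδ : 0 < δ) :
    ∀ᶠ n : ℕ in atTop, IsUnit ((n : ZMod ℓ) + D.N) →
      c * (((Sf k n).filter (nb Q)).card : ℝ) ≤
        (ℓ : ℝ) ^ Fintype.card τ * (((Sf k n).filter (P2 G D Q)).card : ℝ) +
          c * (δ * (Fintype.card k : ℝ) ^ n) := by
  obtain ⟨R, w, C, hR, hw, hC, hCE⟩ := hce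
  obtain ⟨A, hA⟩ := params (k := k) hk Q ℓ hw (R + 1) C (by linarith) δ hδ
  filter_upwards [hA] with n hn hu
  obtain ⟨l, s, z, h1, h2, h3, h4, h5⟩ := hn
  have key : ∀ m ∈ Icc ((R + 1) * s) (A * l), _ := fun m hm =>
    h ℓ k hS hk hq W τ Q hF G D hG c hc R w C hR hw hC hCE n m z s hu h2 h1
      (mem_Icc.1 hm).1 h3 (h4 m (mem_Icc.1 hm).2)
  have e1 : c * cnt (R + 1) A l s z n (nb Q) ≤
      (ℓ : ℝ) ^ Fintype.card τ * cnt (R + 1) A l s z n (P2 G D Q) := by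
    rw [cnt_eq, cnt_eq, mul_sum, mul_sum]
    refine sum_le_sum fun m hm => ?_
    convert key m hm using 3
  have e2 := cnt_le (R + 1) A l s z n (P2 G D Q)
  have e3 := le_cnt (R + 1) A l s z n (nb Q)
  have e4 : (0 : ℝ) ≤ (ℓ : ℝ) ^ Fintype.card τ := by positivity
  have e5 : c * (((Sf k n).filter (nb Q)).card : ℝ) ≤ c * (cnt (R + 1) A l s z n (nb Q) +
      (((Sf k n).filter fun D => ¬ ty (R + 1) A l s z D).card : ℝ)) :=
    mul_le_mul_of_nonneg_left e3 hc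
  have e6 := mul_le_mul_of_nonneg_left e2 e4
  have e7 := mul_le_mul_of_nonneg_left h5 hc
  rw [mul_add] at e5
  linarith

/-- the main estimate in a class, in terms of all the polynomials -/
theorem class_cnt (h : S_LVL) (hS : SYM ℓ k) (hF : Fam Q) (hk : ringChar k ≠ 2)
    (hq : 4 ≤ Fintype.card k) {G : k[X] → Prop} {D : FDat ℓ W τ} (hG : Imp D Q G)
    (c : ℝ) (hc : 0 ≤ c) (hce : CellEst D Q c) (ε : ℝ) (hε : 0 < ε) :
    ∀ᶠ n : ℕ in atTop, IsUnit ((n : ZMod ℓ) + D.N) →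
      (c - ε) * (((Sf k n).filter (nb Q)).card : ℝ) ≤
        (ℓ : ℝ) ^ Fintype.card τ * (((Sf k n).filter (P2 G D Q)).card : ℝ) := by
  obtain ⟨c0, hc0, hlow⟩ := nb_lower hF hk hq
  have hc1 : 0 < 1 + c := by linarith
  filter_upwards [hlow, step_cnt h hS hF hk hq hG c hc hce (ε / (1 + c) * c0) (by positivity)]
    with n e1 e2 hu
  have e3 := e2 hu
  set Y : ℝ := (((Sf k n).filter (nb Q)).card : ℝ) with hY
  set q : ℝ := (Fintype.card k : ℝ) with hqd
  have hY0 : 0 ≤ Y := Nat.cast_nonneg _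
  have h1 : c * (ε / (1 + c) * c0 * q ^ n) ≤ ε * Y := by
    calc c * (ε / (1 + c) * c0 * q ^ n) = (c / (1 + c)) * (ε * (c0 * q ^ n)) := by ring
      _ ≤ 1 * (ε * (c0 * q ^ n)) := by
          apply mul_le_mul_of_nonneg_right
          · rw [div_le_one hc1]
            linarith
          · positivity
      _ = ε * (c0 * q ^ n) := one_mul _
      _ ≤ ε * Y := mul_le_mul_of_nonneg_left e1 hε.le
  linarith

end main

theorem t (h : S_LVL) : S_MAIN := by
  intro ℓ _ k _ _ _ hS hk hq W τ _ _ _ Q hF G DD hsp hg N hN hG c hc hce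
  refine ⟨nb_lower hF hk hq, fun ε hε => ?_⟩
  have hℓ : (0 : ℝ) < ℓ := by
    have := (Fact.out : ℓ.Prime).pos
    exact_mod_cast this
  have h1 : ∀ᶠ n : ℕ in atTop, ∀ σ ∈ (univ : Finset (τ → ZMod ℓ)), IsUnit ((n : ZMod ℓ) + N) →
      (c - ε) * (((Sf k n).filter (nb Q)).card : ℝ) ≤
        (ℓ : ℝ) ^ Fintype.card τ * (((Sf k n).filter (P2 G (DD σ) Q)).card : ℝ) := by
    rw [Filter.eventually_all_finset]
    intro σ _
    have := class_cnt h hS hF hk hq (hG σ) c hc (hce σ) ε hε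
    rw [hN] at this
    exact this
  filter_upwards [h1] with n hn hu
  have h2 : ∑ σ : τ → ZMod ℓ, (((Sf k n).filter (P2 G (DD σ) Q)).card : ℝ) ≤
      (((Sf k n).filter fun E => nb Q E ∧ G E).card : ℝ) := by
    rw [← Nat.cast_sum]
    have h3 : ∑ σ : τ → ZMod ℓ, ((Sf k n).filter (P2 G (DD σ) Q)).card ≤
        ((Sf k n).filter fun E => nb Q E ∧ G E).card := by
      rw [← card_biUnion]
      · apply card_le_card
        intro E hE
        obtain ⟨σ, -, h⟩ := mem_biUnion.1 hE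
        obtain ⟨h4, h5⟩ := mem_filter.1 h
        exact mem_filter.2 ⟨h4, h5.1.1, h5.2⟩
      · intro σ _ σ' _ hne
        rw [Function.onFun, disjoint_left]
        intro E hE hE'
        apply hne
        funext s
        have h4 := (mem_filter.1 hE).2.1.2 s
        have h5 := (mem_filter.1 hE').2.1.2 s
        rw [hsp] at h4 h5
        rw [hg σ' σ, ← h4] at h5
        have h6 := add_right_cancel (add_right_cancel h5)
        exact h6.symm
    exact_mod_cast h3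
  have h3 : ∑ σ : τ → ZMod ℓ, (c - ε) * (((Sf k n).filter (nb Q)).card : ℝ) ≤
      ∑ σ : τ → ZMod ℓ, (ℓ : ℝ) ^ Fintype.card τ *
        (((Sf k n).filter (P2 G (DD σ) Q)).card : ℝ) :=
    sum_le_sum fun σ hσ => hn σ hσ hu
  rw [sum_const, nsmul_eq_mul, ← mul_sum, card_univ, Fintype.card_fun, ZMod.card] at h3
  push_cast at h3
  have h4 := le_of_mul_le_mul_left h3 (pow_pos hℓ _)
  exact h4.trans h2

end Pool.Agent.Y261.SZ
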